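import Pool.Agent.Q37.GU.Main

/-!
The answer to Q1 is negative: there is a `π₁`-like functor which is equal to the topological
fundamental groupoid functor on all varieties defined over the algebraic numbers and all complex
morphisms between them, but no twist of which by a field automorphism of `ℂ` is equivalent to the
topological fundamental groupoid functor.
-/

namespace Pool.Agent.Results.MP_8178ab_ag.EqualOverQbar

open Pool.Agent.W481 Pool.Agent.Q37.GU

theorem result : ∃ π : Pi1Like, AgreesOn π OverQb ∧ ∀ σ : ℂ ≃+* ℂ, IsEmpty (TopIso π σ) :=
  main

end Pool.Agent.Results.MP_8178ab_ag.EqualOverQbar
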